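import Mathlib
import Pool.Agent.QuasiIdAlt2

/-!
# Quasi-identities of finite Jordan rings

A finite ring (not necessarily associative) with a finite basis of quasi-identities has only
nilpotent subrings with zero multiplication.  For every prime `p` the ring `Ring4 p` of order `p ^ 4`
is a Jordan ring, neither associative nor alternative, and has no finite basis of quasi-identities.
-/

set_option autoImplicit false

namespace Pool.Agent.Results.MP_db5ef1_al.JordanRings

open Pool.Agent.QuasiId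

/-- Quadruples `(a, b, c, d)` over `ZMod p` with the product
`(a, b, c, d) (a', b', c', d') = (0, 0, a a', b c' + c b')`. -/
def Ring4 (p : ℕ) : Type := ZMod p × ZMod p × ZMod p × ZMod p

instance (p : ℕ) : AddCommGroup (Ring4 p) :=
  inferInstanceAs (AddCommGroup (ZMod p × ZMod p × ZMod p × ZMod p))

instance (p : ℕ) : NonUnitalNonAssocRing (Ring4 p) :=
  { (inferInstance : AddCommGroup (Ring4 p)) with
    mul := fun x y => (0, 0, x.1 * y.1, x.2.1 * y.2.2.1 + x.2.2.1 * y.2.1)
    left_distrib := fun x y z => by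
      refine Prod.ext (by change (0 : ZMod p) = 0 + 0; simp) (Prod.ext
        (by change (0 : ZMod p) = 0 + 0; simp) (Prod.ext ?_ ?_))
      · change x.1 * (y.1 + z.1) = x.1 * y.1 + x.1 * z.1
        ring
      · change x.2.1 * (y.2.2.1 + z.2.2.1) + x.2.2.1 * (y.2.1 + z.2.1) =
          (x.2.1 * y.2.2.1 + x.2.2.1 * y.2.1) + (x.2.1 * z.2.2.1 + x.2.2.1 * z.2.1)
        ring
    right_distrib := fun x y z => by
      refine Prod.ext (by change (0 : ZMod p) = 0 + 0; simp) (Prod.ext
        (by change (0 : ZMod p) = 0 + 0; simp) (Prod.ext ?_ ?_))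
      · change (x.1 + y.1) * z.1 = x.1 * z.1 + y.1 * z.1
        ring
      · change (x.2.1 + y.2.1) * z.2.2.1 + (x.2.2.1 + y.2.2.1) * z.2.1 =
          (x.2.1 * z.2.2.1 + x.2.2.1 * z.2.1) + (y.2.1 * z.2.2.1 + y.2.2.1 * z.2.1)
        ring
    zero_mul := fun x => by
      refine Prod.ext rfl (Prod.ext rfl (Prod.ext ?_ ?_))
      · change (0 : ZMod p) * x.1 = 0
        ring
      · change (0 : ZMod p) * x.2.2.1 + 0 * x.2.1 = 0
        ring
    mul_zero := fun x => by
      refine Prod.ext rfl (Prod.ext rfl (Prod.ext ?_ ?_))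
      · change x.1 * (0 : ZMod p) = 0
        ring
      · change x.2.1 * (0 : ZMod p) + x.2.2.1 * 0 = 0
        ring }

lemma mul_def (p : ℕ) (x y : Ring4 p) :
    x * y = ((0, 0, x.1 * y.1, x.2.1 * y.2.2.1 + x.2.2.1 * y.2.1) :
      ZMod p × ZMod p × ZMod p × ZMod p) := rfl

lemma mul_1 (p : ℕ) (x y : Ring4 p) : (x * y).1 = 0 := rfl
lemma mul_2 (p : ℕ) (x y : Ring4 p) : (x * y).2.1 = 0 := rfl
lemma mul_3 (p : ℕ) (x y : Ring4 p) : (x * y).2.2.1 = x.1 * y.1 := rfl
lemma mul_4 (p : ℕ) (x y : Ring4 p) :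
    (x * y).2.2.2 = x.2.1 * y.2.2.1 + x.2.2.1 * y.2.1 := rfl

lemma ext4 {p : ℕ} {x y : Ring4 p} (h1 : x.1 = y.1) (h2 : x.2.1 = y.2.1)
    (h3 : x.2.2.1 = y.2.2.1) (h4 : x.2.2.2 = y.2.2.2) : x = y :=
  Prod.ext h1 (Prod.ext h2 (Prod.ext h3 h4))

instance (p : ℕ) [NeZero p] : Finite (Ring4 p) :=
  inferInstanceAs (Finite (ZMod p × ZMod p × ZMod p × ZMod p))

lemma card (p : ℕ) [NeZero p] : Nat.card (Ring4 p) = p ^ 4 := by
  have : Nat.card (ZMod p × ZMod p × ZMod p × ZMod p) = p ^ 4 := by
    rw [Nat.card_eq_fintype_card]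
    simp only [Fintype.card_prod, ZMod.card]
    ring
  exact this

lemma jordan (p : ℕ) : IsJordanRing (Ring4 p) := by
  refine ⟨fun x y => ?_, fun x y => ?_⟩
  · refine ext4 rfl rfl ?_ ?_
    · rw [mul_3, mul_3]
      ring
    · rw [mul_4, mul_4]
      ring
  · refine ext4 rfl rfl ?_ ?_
    · simp only [mul_3, mul_1]
      ring
    · simp only [mul_4, mul_3, mul_2, mul_1]
      ring

/-- the four basis elements -/
def e1 (p : ℕ) : Ring4 p := ((1, 0, 0, 0) : ZMod p × ZMod p × ZMod p × ZMod p)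
/-- the second basis element -/
def e2 (p : ℕ) : Ring4 p := ((0, 1, 0, 0) : ZMod p × ZMod p × ZMod p × ZMod p)

lemma witness (p : ℕ) [Fact p.Prime] :
    (e1 p * e1 p) * e2 p ≠ e1 p * (e1 p * e2 p) := by
  intro h
  have h2 : ((e1 p * e1 p) * e2 p).2.2.2 = (e1 p * (e1 p * e2 p)).2.2.2 := by rw [h]
  simp only [mul_4, mul_3, mul_2] at h2
  simp [e1, e2] at h2

/-- products of at least `k` elements lie in the `k`-th term of a chain of subsets -/
lemma product_mem (p : ℕ) {k : ℕ} {a : Ring4 p} (h : IsProduct k a) :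
    (2 ≤ k → a.1 = 0 ∧ a.2.1 = 0) ∧ (3 ≤ k → a.2.2.1 = 0) ∧ (4 ≤ k → a.2.2.2 = 0) := by
  induction h with
  | elem a => exact ⟨fun h => by omega, fun h => by omega, fun h => by omega⟩
  | @mul i j a b hi hj ih1 ih2 =>
    have h1 := isProduct_pos hi
    have h2 := isProduct_pos hj
    rw [mul_def]
    refine ⟨fun _ => ⟨rfl, rfl⟩, fun h => ?_, fun h => ?_⟩
    · change a.1 * b.1 = 0
      rcases Nat.lt_or_ge i 2 with hi2 | hi2
      · rw [(ih2.1 (by omega)).1, mul_zero]
      · rw [(ih1.1 hi2).1, zero_mul]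
    · change a.2.1 * b.2.2.1 + a.2.2.1 * b.2.1 = 0
      rcases Nat.lt_or_ge i 2 with hi2 | hi2
      · rw [ih2.2.1 (by omega), (ih2.1 (by omega)).2, mul_zero, mul_zero, add_zero]
      · rw [(ih1.1 hi2).2, zero_mul, zero_add]
        rcases Nat.lt_or_ge j 2 with hj2 | hj2
        · rw [ih1.2.1 (by omega), zero_mul]
        · rw [(ih2.1 hj2).2, mul_zero]

lemma nilpotent (p : ℕ) : NilpotentRing (Ring4 p) := by
  refine ⟨4, by norm_num, fun a ha => ?_⟩
  obtain ⟨h1, h2, h3⟩ := product_mem p ha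
  exact Prod.ext (h1 (by norm_num)).1 (Prod.ext (h1 (by norm_num)).2
    (Prod.ext (h2 (by norm_num)) (h3 (by norm_num))))

/-- (1) A finite ring, not necessarily associative, which has a finite basis of quasi-identities has
only nilpotent subrings with zero multiplication. (2) In particular this holds for the finite Jordan
rings. (3) For every prime `p` there is a Jordan ring with `p ^ 4` elements which is nilpotent,
neither associative nor alternative, and has no finite basis of quasi-identities. -/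
theorem result :
    (∀ (A : Type) [NonUnitalNonAssocRing A], Finite A → HasFiniteBasis A →
      ∀ N : NonUnitalSubring A, NilpotentRing N → ∀ x ∈ N, ∀ y ∈ N, x * y = 0) ∧
    (∀ p : ℕ, p.Prime → ∃ (A : Type) (_ : NonUnitalNonAssocRing A), Nat.card A = p ^ 4 ∧
      IsJordanRing A ∧ NilpotentRing A ∧ ¬ IsAssociativeRing A ∧ ¬ IsAlternativeRing A ∧
      ¬ HasFiniteBasis A) := by
  have key : ∀ (A : Type) [NonUnitalNonAssocRing A], Finite A → HasFiniteBasis A →
      ∀ N : NonUnitalSubring A, NilpotentRing N → ∀ x ∈ N, ∀ y ∈ N, x * y = 0 := by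
    intro A _ hfin hb N hN x hx y hy
    by_contra hxy
    exact mainAll A N (NonUnitalSubringClass.subtype N) Subtype.val_injective hN ⟨x, hx⟩ ⟨y, hy⟩
      (fun h => hxy (congrArg Subtype.val h)) hb
  refine ⟨key, fun p hp => ?_⟩
  have : Fact p.Prime := ⟨hp⟩
  refine ⟨Ring4 p, inferInstance, card p, jordan p, nilpotent p, fun h => ?_, fun h => ?_,
    fun h => ?_⟩
  · exact witness p (h _ _ _)
  · exact witness p (h.1 _ _)
  · have h1 : e1 p * e1 p ≠ 0 := by
      intro h0
      apply witness p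
      rw [h0, zero_mul]
      have h2 : e1 p * e2 p = 0 := by
        refine ext4 rfl rfl ?_ ?_
        · rw [mul_3]
          change (1 : ZMod p) * 0 = 0
          ring
        · rw [mul_4]
          change (0 : ZMod p) * 0 + 0 * 1 = 0
          ring
      rw [h2, mul_zero]
    exact mainAll (Ring4 p) (Ring4 p) (NonUnitalRingHom.id _) Function.injective_id (nilpotent p)
      (e1 p) (e1 p) h1 h

end Pool.Agent.Results.MP_db5ef1_al.JordanRings
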